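import Pool.Agent.helper70.QSD.SpecD

/-!
# Project qsd: row DCT (counting modulo 7)
-/

namespace Pool.Agent.helper70.QSD

open Pool.Agent.helper53.AU
open scoped Classical

theorem DCT_two {K : Type} [Field K] [CharP K 2] : (2 : K) = 0 := CharTwo.two_eq_zero

theorem DCT_ind {K : Type} [Field K] [CharP K 2] {u v w : K} (h : Ind3 u v w) :
    Ind3 v w (u + v) := by
  obtain ⟨h1, h2, h3, h4, h5, h6, h7⟩ := h
  have ht : (2 : K) = 0 := DCT_two
  refine ⟨h2, h4, fun e => h6 e.symm, fun e => h3 ?_, fun e => h1 ?_, fun e => h7 e.symm, fun e => h5 ?_⟩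
  · linear_combination e - v * ht
  · linear_combination e
  · linear_combination -e

/-- the map `(u, v, w) ↦ (v, w, u + v)` -/
def DCT_f {K : Type} [Field K] (P : K → K → K → Prop)
    (hP : ∀ u v w, P u v w → P v w (u + v)) :
    Function.End {t : K × K × K // P t.1 t.2.1 t.2.2} :=
  fun t => ⟨(t.1.2.1, t.1.2.2, t.1.1 + t.1.2.1), hP _ _ _ t.2⟩

theorem DCT_f_pow {K : Type} [Field K] [CharP K 2] (P : K → K → K → Prop)
    (hP : ∀ u v w, P u v w → P v w (u + v)) : DCT_f P hP ^ 7 ^ 1 = 1 := by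
  have ht : (2 : K) = 0 := DCT_two
  funext t
  obtain ⟨⟨u, v, w⟩, h⟩ := t
  have e : (DCT_f P hP ^ 7 ^ 1) ⟨(u, v, w), h⟩ = (DCT_f P hP)^[7] ⟨(u, v, w), h⟩ := rfl
  rw [e]
  apply Subtype.ext
  have e2 : (((DCT_f P hP)^[7] ⟨(u, v, w), h⟩ :
      {t : K × K × K // P t.1 t.2.1 t.2.2}) : K × K × K) =
      ((v + w) + (w + (u + v)), (w + (u + v)) + ((u + v) + (v + w)),
        ((u + v) + (v + w)) + ((v + w) + (w + (u + v)))) := rfl
  rw [e2]
  refine Prod.ext ?_ (Prod.ext ?_ ?_)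
  · change (v + w) + (w + (u + v)) = u
    linear_combination (v + w) * ht
  · change (w + (u + v)) + ((u + v) + (v + w)) = v
    linear_combination (w + u + v) * ht
  · change ((u + v) + (v + w)) + ((v + w) + (w + (u + v))) = w
    linear_combination (u + 2 * v + w) * ht

theorem DCT_dvd {K : Type} [Field K] [Fintype K] [CharP K 2] (P : K → K → K → Prop)
    (hP : ∀ u v w, P u v w → P v w (u + v)) (hP' : ∀ u v w, P u v w → u ≠ v) :
    7 ∣ (Finset.univ.filter (fun t : K × K × K => P t.1 t.2.1 t.2.2)).card := by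
  have : Fact (Nat.Prime 7) := ⟨by norm_num⟩
  have h := Equiv.Perm.card_fixedPoints_modEq (f := DCT_f P hP) (p := 7) (n := 1) (DCT_f_pow P hP)
  have h0 : Fintype.card (DCT_f P hP).fixedPoints = 0 := by
    rw [Fintype.card_eq_zero_iff]
    refine ⟨fun t => ?_⟩
    obtain ⟨⟨⟨u, v, w⟩, h1⟩, h3⟩ := t
    have h4 := congrArg (fun x : {t : K × K × K // P t.1 t.2.1 t.2.2} => x.1.1) h3
    exact hP' _ _ _ h1 h4.symm
  rw [h0] at h
  rw [← Fintype.card_subtype]
  exact (Nat.modEq_zero_iff_dvd).1 h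

theorem DCT_card {K : Type} [Field K] [Fintype K] (P : K → K → K → Prop) (lam : ℕ)
    (hP : ∀ u v w, P u v w → u ≠ 0 ∧ v ≠ 0 ∧ u ≠ v)
    (h : ∀ u v : K, u ≠ 0 → v ≠ 0 → u ≠ v → ∃ W : Finset K, W.card = 4 * lam ∧
      ∀ w, w ∈ W ↔ P u v w) :
    (Finset.univ.filter (fun t : K × K × K => P t.1 t.2.1 t.2.2)).card =
      (Finset.univ.erase (0 : K)).offDiag.card * (4 * lam) := by
  rw [Finset.card_eq_sum_card_fiberwise (f := fun t : K × K × K => (t.1, t.2.1))
    (t := (Finset.univ.erase (0 : K)).offDiag)]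
  · refine Finset.sum_const_nat fun p hp => ?_
    obtain ⟨u, v⟩ := p
    rw [Finset.mem_offDiag, Finset.mem_erase, Finset.mem_erase] at hp
    obtain ⟨W, hW1, hW2⟩ := h u v hp.1.1 hp.2.1.1 hp.2.2
    have e : (Finset.univ.filter (fun t : K × K × K => P t.1 t.2.1 t.2.2)).filter
        (fun t => (t.1, t.2.1) = (u, v)) = W.image (fun w => (u, v, w)) := by
      ext t
      obtain ⟨a, b, c⟩ := t
      simp only [Finset.mem_filter, Finset.mem_univ, true_and, Finset.mem_image, Prod.mk.injEq, hW2]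
      constructor
      · rintro ⟨h1, rfl, rfl⟩
        exact ⟨c, h1, rfl, rfl, rfl⟩
      · rintro ⟨w, h1, rfl, rfl, rfl⟩
        exact ⟨h1, rfl, rfl⟩
    rw [e, Finset.card_image_of_injective _ (fun x y hxy => (Prod.mk.inj (Prod.mk.inj hxy).2).2), hW1]
  · intro t ht
    have ht' := (Finset.mem_filter.1 ht).2
    obtain ⟨h1, h2, h3⟩ := hP _ _ _ ht'
    exact Finset.mem_offDiag.2 ⟨Finset.mem_erase.2 ⟨h1, Finset.mem_univ _⟩,
      Finset.mem_erase.2 ⟨h2, Finset.mem_univ _⟩, h3⟩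

/-- **DCT**. -/
theorem DCT : DCT_stmt := by
  intro K _ _ _ N hN hN6 B hB lam h
  have h1 := DCT_dvd (fun u v w => Ind3 u v w ∧ B u v w)
    (fun u v w hh => ⟨DCT_ind hh.1, hB u v w hh.2⟩) (fun u v w hh => hh.1.2.2.1)
  rw [DCT_card (fun u v w => Ind3 u v w ∧ B u v w) lam (fun u v w hh => ⟨hh.1.1, hh.1.2.1, hh.1.2.2.1⟩) h,
    Finset.offDiag_card, Finset.card_erase_of_mem (Finset.mem_univ _), Finset.card_univ, hN] at h1
  have h2 : 2 ^ N % 7 = 4 := by
    have e : N = 6 * (N / 6) + 5 := by omega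
    rw [e, pow_add, pow_mul, Nat.mul_mod, Nat.pow_mod]
    norm_num
  obtain ⟨m, hm⟩ : ∃ m, 2 ^ N = 7 * m + 4 := ⟨2 ^ N / 7, by omega⟩
  rw [hm] at h1
  have e1 : 7 * m + 4 - 1 = 7 * m + 3 := by omega
  have e2 : (7 * m + 3) * (7 * m + 3) - (7 * m + 3) = (7 * m + 3) * (7 * m + 2) := by
    have : (7 * m + 3) * (7 * m + 3) = (7 * m + 3) * (7 * m + 2) + (7 * m + 3) := by ring
    omega
  rw [e1, e2] at h1
  have hp : Nat.Prime 7 := by norm_num
  rcases (hp.dvd_mul).1 h1 with h3 | h3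
  · rcases (hp.dvd_mul).1 h3 with h4 | h4 <;> omega
  · omega

end Pool.Agent.helper70.QSD
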